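import Pool.Agent.Helper58_ABCT.Pv

/-!
# ABCT: UDIV, prime divisors of the open part
-/

open MvPolynomial Topology

namespace PosGeom.H58

/-- the function field of a hypersurface -/
theorem exists_hyp {n : ℕ} (h : MvPolynomial (Fin n) ℂ) (hh : Irreducible h) :
    ∃ (L : Type) (_ : Field L) (_ : Algebra ℂ L) (x : Fin n → L),
      (∀ P, aeval x P = 0 ↔ h ∣ P) ∧ IntermediateField.adjoin ℂ (Set.range x) = ⊤ := by
  have hp : Prime h := hh.prime
  have : (Ideal.span {h}).IsPrime := (Ideal.span_singleton_prime hp.ne_zero).2 hp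
  have key : ∀ P : MvPolynomial (Fin n) ℂ,
      aeval (fun i => algebraMap (MvPolynomial (Fin n) ℂ ⧸ Ideal.span {h})
        (FractionRing (MvPolynomial (Fin n) ℂ ⧸ Ideal.span {h}))
        (Ideal.Quotient.mk (Ideal.span {h}) (X i))) P =
      algebraMap (MvPolynomial (Fin n) ℂ ⧸ Ideal.span {h})
        (FractionRing (MvPolynomial (Fin n) ℂ ⧸ Ideal.span {h}))
        (Ideal.Quotient.mk (Ideal.span {h}) P) := by
    intro P
    induction P using MvPolynomial.induction_on with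
    | C a =>
      rw [aeval_C]
      rfl
    | add p q hp hq => rw [map_add, map_add, map_add, hp, hq]
    | mul_X p i hp => rw [map_mul, map_mul, map_mul, hp, aeval_X]
  refine ⟨FractionRing (MvPolynomial (Fin n) ℂ ⧸ Ideal.span {h}), inferInstance, inferInstance,
    fun i => algebraMap _ _ (Ideal.Quotient.mk (Ideal.span {h}) (X i)), ?_, ?_⟩
  · intro P
    rw [key, map_eq_zero_iff _ (IsFractionRing.injective _ _), Ideal.Quotient.eq_zero_iff_mem,
      Ideal.mem_span_singleton]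
  · rw [eq_top_iff]
    intro f _
    obtain ⟨p, q, _, rfl⟩ := IsFractionRing.div_surjective
      (A := MvPolynomial (Fin n) ℂ ⧸ Ideal.span {h}) f
    obtain ⟨p, rfl⟩ := Ideal.Quotient.mk_surjective p
    obtain ⟨q, rfl⟩ := Ideal.Quotient.mk_surjective q
    rw [← key, ← key]
    have h1 : ∀ P : MvPolynomial (Fin n) ℂ,
        aeval (fun i => algebraMap (MvPolynomial (Fin n) ℂ ⧸ Ideal.span {h})
          (FractionRing (MvPolynomial (Fin n) ℂ ⧸ Ideal.span {h}))
          (Ideal.Quotient.mk (Ideal.span {h}) (X i))) P ∈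
        IntermediateField.adjoin ℂ (Set.range (fun i =>
          algebraMap (MvPolynomial (Fin n) ℂ ⧸ Ideal.span {h})
          (FractionRing (MvPolynomial (Fin n) ℂ ⧸ Ideal.span {h}))
          (Ideal.Quotient.mk (Ideal.span {h}) (X i)))) := by
      intro P
      induction P using MvPolynomial.induction_on with
      | C a =>
        rw [aeval_C]
        exact IntermediateField.algebraMap_mem _ _
      | add p q hp hq => rw [map_add]; exact add_mem hp hq
      | mul_X p i hp =>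
        rw [map_mul, aeval_X]
        exact mul_mem hp (IntermediateField.subset_adjoin _ _ ⟨i, rfl⟩)
    exact div_mem (h1 _) (h1 _)

theorem zpow_split {K : Type} [Field K] {z : K} {n : ℤ} (h : z ≠ 0 ∨ n = 0) :
    z ^ n * z ^ (-n).toNat = z ^ n.toNat := by
  rcases h with h | rfl
  · rcases le_total 0 n with hn | hn
    · obtain ⟨m, rfl⟩ := Int.eq_ofNat_of_zero_le hn
      simp
    · obtain ⟨m, hm⟩ := Int.eq_ofNat_of_zero_le (neg_nonneg.2 hn)
      obtain rfl : n = -(m : ℤ) := by omega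
      have h1 : (-(m : ℤ)).toNat = 0 := by omega
      have h2 : (-(-(m : ℤ))).toNat = m := by omega
      rw [h1, h2, pow_zero, zpow_neg, zpow_natCast, inv_mul_cancel₀ (pow_ne_zero _ h)]
  · simp

theorem mon_transfer {ι : Type} [Fintype ι] {m : ℕ} {K L : Type} [Field K] [Algebra ℂ K] [Field L]
    [Algebra ℂ L] (y : Fin m → K) (hy : ∀ P : MvPolynomial (Fin m) ℂ, aeval y P = 0 → P = 0)
    (x : Fin m → L) (LC : ι → MvPolynomial (Fin m) ℂ) (n : ι → ℤ)
    (h1 : ∀ i, aeval y (LC i) ≠ 0 ∨ n i = 0) (h2 : ∀ i, aeval x (LC i) ≠ 0 ∨ n i = 0)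
    (P : MvPolynomial (Fin m) ℂ) (hP : aeval y P = ∏ i, (aeval y (LC i)) ^ n i) :
    aeval x P = ∏ i, (aeval x (LC i)) ^ n i := by
  have h3 : P * ∏ i, LC i ^ (-(n i)).toNat = ∏ i, LC i ^ (n i).toNat := by
    rw [← sub_eq_zero]
    apply hy
    rw [map_sub, map_mul, map_prod, map_prod, hP, ← Finset.prod_mul_distrib, sub_eq_zero]
    refine Finset.prod_congr rfl fun i _ => ?_
    rw [map_pow, map_pow]
    exact zpow_split (h1 i)
  have h4 := congrArg (aeval x) h3
  rw [map_mul, map_prod, map_prod] at h4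
  have h5 : (∏ i, (aeval x (LC i)) ^ n i) * ∏ i, aeval x (LC i ^ (-(n i)).toNat) =
      ∏ i, aeval x (LC i ^ (n i).toNat) := by
    rw [← Finset.prod_mul_distrib]
    refine Finset.prod_congr rfl fun i _ => ?_
    rw [map_pow, map_pow]
    exact zpow_split (h2 i)
  have h6 : ∏ i, aeval x (LC i ^ (-(n i)).toNat) ≠ 0 := by
    rw [Finset.prod_ne_zero_iff]
    intro i _
    rw [map_pow]
    rcases h2 i with h | h
    · exact pow_ne_zero _ h
    · rw [h]; simp
  exact mul_right_cancel₀ h6 (h4.trans h5.symm)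

theorem evN_map {σ K : Type} [CommRing K] [Algebra ℂ K] (x : σ → K) (p : MvPolynomial σ ℕ) :
    aeval x (map (Nat.castRingHom ℂ) p) = evN x p := by
  unfold evN
  rw [aeval_def, eval₂_map]
  congr 1
  ext
  simp

theorem ind_inj {m : ℕ} {K : Type} [Field K] [Algebra ℂ K] {y : Fin m → K}
    (hy : AlgebraicIndependent ℂ y) (P : MvPolynomial (Fin m) ℂ) (hP : aeval y P = 0) : P = 0 :=
  hy (by rw [hP, map_zero])

theorem val_one {K : Type} [Field K] (O : ValuationSubring K) {a : K} (ha : a ≠ 0) (h1 : a ∈ O)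
    (h2 : a⁻¹ ∈ O) : O.valuation a = 1 := by
  have h3 := (O.valuation_le_one_iff a).2 h1
  have h4 := (O.valuation_le_one_iff a⁻¹).2 h2
  apply le_antisymm h3
  have h5 : O.valuation a * O.valuation a⁻¹ = 1 := by
    rw [← map_mul, mul_inv_cancel₀ ha, map_one]
  calc (1 : O.ValueGroup) = O.valuation a * O.valuation a⁻¹ := h5.symm
    _ ≤ O.valuation a * 1 := mul_le_mul_right h4 _
    _ = O.valuation a := mul_one _

theorem spec_LF {ι : Type} [Fintype ι] {d : ℕ} {N : NCell ι d} {e : N.var.K ≃ₐ[ℂ] Fd d}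
    (he : N.IsE e) {n : ℕ} {F G : MvPolynomial ι ℂ} (hF : F.IsHomogeneous n)
    (hG : G.IsHomogeneous n) (hG0 : aeval N.LF G ≠ 0) {f : N.var.K}
    (h : (f : N.var.Frac) * aeval N.var.gen G = aeval N.var.gen F) :
    f = aeval (N.ch e) (aeval (fun i => map (Nat.castRingHom ℂ) (N.L i)) F) /
      aeval (N.ch e) (aeval (fun i => map (Nat.castRingHom ℂ) (N.L i)) G) := by
  have h1 : e f = aeval N.LF F / aeval N.LF G := by
    rw [← he]
    exact ⟨n, F, G, hF, hG, hG0, h, div_mul_cancel₀ _ hG0⟩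
  have h2 : ∀ P : MvPolynomial ι ℂ, e.symm (aeval N.LF P) =
      aeval (N.ch e) (aeval (fun i => map (Nat.castRingHom ℂ) (N.L i)) P) := by
    intro P
    have h3 : N.LF = fun i => aeval (yv d) (map (Nat.castRingHom ℂ) (N.L i)) := by
      funext i
      rw [evN_map]
      rfl
    rw [h3, ← comp_aeval_apply]
    have h4 := comp_aeval_apply (f := yv d) (φ := e.symm.toAlgHom)
      (p := aeval (fun i => map (Nat.castRingHom ℂ) (N.L i)) P)
    exact h4
  rw [← h2, ← h2, ← map_div₀, ← h1, AlgEquiv.symm_apply_apply]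

theorem udiv (hU : UtrdStmt) (hV : UhvrStmt) (hC : CfldStmt) (hS : SgenStmt) : UdivStmt := by
  intro ι _ d N e hN he h hh hX hL
  obtain ⟨-, hcoord, -, hvar⟩ := hC ι (d + 1) N hN
  have hy := hcoord e he
  obtain ⟨O, hO, hO1, hO2, hO3, hO4⟩ := hV N.var.K (d + 1) (N.ch e) hy h hh
  obtain ⟨L, _, _, x, hx, hgen⟩ := exists_hyp h hh
  obtain ⟨LC, hLC⟩ : ∃ LC : ι → MvPolynomial (Fin (d + 1)) ℂ,
    LC = fun i => map (Nat.castRingHom ℂ) (N.L i) := ⟨_, rfl⟩
  obtain ⟨ξ, hξdef⟩ : ∃ ξ : ι → L, ξ = fun i => aeval x (LC i) := ⟨_, rfl⟩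
  have hξ : ∀ i ∈ N.M, ξ i ≠ 0 := by
    intro i hi
    rw [hξdef, hLC, Ne, hx]
    exact hL i hi
  obtain ⟨i₀, hi₀⟩ := N.ne
  have hi₀' : i₀ ∈ N.M := hi₀
  have hne : ∃ i, ξ i ≠ 0 := ⟨i₀, hξ i₀ hi₀⟩
  have hFξ : ∀ F : MvPolynomial ι ℂ, aeval ξ F = aeval x (aeval LC F) := by
    intro F
    rw [hξdef]
    exact (comp_aeval_apply (f := LC) (φ := aeval x) (p := F)).symm
  have hyv : ∀ P : MvPolynomial (Fin (d + 1)) ℂ, aeval (yv (d + 1)) P = 0 → P = 0 :=
    ind_inj (H81.algInd_yv (d + 1))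
  have hLF : ∀ i, N.LF i = aeval (yv (d + 1)) (LC i) := by
    intro i
    rw [hLC]
    exact (evN_map _ _).symm
  have hFLF : ∀ F : MvPolynomial ι ℂ, aeval N.LF F = aeval (yv (d + 1)) (aeval LC F) := by
    intro F
    have h1 : N.LF = fun i => aeval (yv (d + 1)) (LC i) := funext hLF
    rw [h1]
    exact (comp_aeval_apply (f := LC) (φ := aeval (yv (d + 1))) (p := F)).symm
  have hsub : N.var.I ≤ (pv ξ hne).I := by
    intro F hF
    rw [mem_pv]
    intro n
    have h1 := N.var.homog F hF n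
    rw [← hvar _ n (homogeneousComponent_isHomogeneous n F), hFLF] at h1
    rw [hFξ, hyv _ h1, map_zero]
  have hmon : ∀ j, x j ∈ MonI N.M ξ := by
    intro j
    obtain ⟨n, hn1, hn2, hn3⟩ := hN j
    refine ⟨n, hn1, hn2, ?_⟩
    have h1 : ∀ i, aeval (yv (d + 1)) (LC i) ≠ 0 ∨ n i = 0 := by
      intro i
      by_cases hi : i ∈ N.M
      · left
        rw [← hLF]
        exact H81.LF_ne N i hi
      · right; exact hn1 i hi
    have h2 : ∀ i, aeval x (LC i) ≠ 0 ∨ n i = 0 := by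
      intro i
      by_cases hi : i ∈ N.M
      · left
        have := hξ i hi
        rwa [hξdef] at this
      · right; exact hn1 i hi
    have h3 := mon_transfer (yv (d + 1)) hyv x LC n h1 h2 (X j) (by
      rw [aeval_X, hn3]
      exact Finset.prod_congr rfl fun i _ => by rw [hLF])
    rw [aeval_X] at h3
    rw [h3, hξdef]
  obtain ⟨hD1, -, hD3⟩ := hS ι (pv ξ hne)
  obtain ⟨e', -, he'⟩ := hD3 L ξ (fun F n hF => mem_pv_hom ξ hF)
  have hsurj : Function.Surjective e' := by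
    have h5 : e'.fieldRange = ⊤ := by
      rw [eq_top_iff, ← hgen, he', IntermediateField.adjoin_le_iff]
      rintro _ ⟨j, rfl⟩
      exact H81.mon_mem N.M ξ hξ i₀ hi₀' _ (hmon j)
    exact AlgHom.fieldRange_eq_top.1 h5
  let E : (pv ξ hne).K ≃ₐ[ℂ] L := AlgEquiv.ofBijective e' ⟨e'.toRingHom.injective, hsurj⟩
  have hunit : ¬ h ∣ 1 := fun h1 => hh.not_isUnit (isUnit_of_dvd_one h1)
  have hy0 : ∀ j, N.ch e j ≠ 0 := fun j => hy.ind.ne_zero j
  refine ⟨pv ξ hne, O, hsub, ?_, hO, ?_, ?_, hO4, hO3⟩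
  · rw [E.trdeg_eq]
    exact hU d h hh L x hx hgen
  · intro f a hfa
    obtain ⟨n, F, G, hF, hG, hG0, hfG, haG⟩ := hfa
    have hG1 : G ∉ (pv ξ hne).I := fun h1 => hG0 ((hD1 G).2 h1)
    have hG2 : aeval N.LF G ≠ 0 := by
      intro h1
      exact hG1 (hsub ((hvar G n hG).1 h1))
    have hG3 : ¬ h ∣ aeval LC G := by
      rw [← hx, ← hFξ, mem_pv_hom ξ hG]
      exact hG1
    have hf := spec_LF he hF hG hG2 hfG
    rw [← hLC] at hf
    constructor
    · rw [hf]
      exact hO1 _ _ hG3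
    · rintro rfl
      rw [zero_mul] at haG
      have h1 : h ∣ aeval LC F := by
        rw [← hx, ← hFξ, mem_pv_hom ξ hF]
        exact (hD1 F).1 haG.symm
      rw [hf]
      exact hO2 _ _ hG3 h1
  · intro j
    apply val_one O (hy0 j)
    · have := hO1 (X j) 1 hunit
      rwa [aeval_X, map_one, div_one] at this
    · have := hO1 1 (X j) (hX j)
      rwa [aeval_X, map_one, one_div] at this

end PosGeom.H58
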