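import Pool.Agent.Helper58_ABCT.Udiv

/-!
# ABCT: UREG, regular forms have coefficients in the ring of the open part
-/

open MvPolynomial Topology

namespace PosGeom.H58

section mon

variable {ι : Type} [Fintype ι] {K : Type} [Field K] {M' : Set ι} {p : ι → K}

theorem MonI_one : (1 : K) ∈ MonI M' p := ⟨0, fun _ _ => rfl, by simp, by simp⟩

theorem MonI_mul (hp : ∀ i ∈ M', p i ≠ 0) {a b : K} (ha : a ∈ MonI M' p) (hb : b ∈ MonI M' p) :
    a * b ∈ MonI M' p := by
  obtain ⟨n, h1, h2, rfl⟩ := ha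
  obtain ⟨m, h3, h4, rfl⟩ := hb
  refine ⟨n + m, fun i hi => by rw [Pi.add_apply, h1 i hi, h3 i hi, add_zero], ?_, ?_⟩
  · simp only [Pi.add_apply]
    rw [Finset.sum_add_distrib, h2, h4, add_zero]
  · rw [← Finset.prod_mul_distrib]
    refine Finset.prod_congr rfl fun i _ => ?_
    by_cases hi : i ∈ M'
    · rw [Pi.add_apply, zpow_add₀ (hp i hi)]
    · rw [Pi.add_apply, h1 i hi, h3 i hi]; simp

theorem MonI_inv {a : K} (ha : a ∈ MonI M' p) : a⁻¹ ∈ MonI M' p := by
  obtain ⟨n, h1, h2, rfl⟩ := ha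
  refine ⟨-n, fun i hi => by rw [Pi.neg_apply, h1 i hi, neg_zero], ?_, ?_⟩
  · simp only [Pi.neg_apply]
    rw [Finset.sum_neg_distrib, h2, neg_zero]
  · rw [← Finset.prod_inv_distrib]
    refine Finset.prod_congr rfl fun i _ => ?_
    rw [Pi.neg_apply, zpow_neg]

theorem MonI_pow (hp : ∀ i ∈ M', p i ≠ 0) {a : K} (ha : a ∈ MonI M' p) (k : ℕ) :
    a ^ k ∈ MonI M' p := by
  induction k with
  | zero => rw [pow_zero]; exact MonI_one
  | succ k ih => rw [pow_succ]; exact MonI_mul hp ih ha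

theorem MonI_prod (hp : ∀ i ∈ M', p i ≠ 0) {σ : Type} (s : Finset σ) (f : σ → K)
    (hf : ∀ j ∈ s, f j ∈ MonI M' p) : ∏ j ∈ s, f j ∈ MonI M' p := by
  classical
  induction s using Finset.induction_on with
  | empty => rw [Finset.prod_empty]; exact MonI_one
  | insert a s ha ih =>
    rw [Finset.prod_insert ha]
    exact MonI_mul hp (hf a (Finset.mem_insert_self a s))
      (ih fun j hj => hf j (Finset.mem_insert_of_mem hj))

end mon

open Classical in
/-- quotients of forms by powers of the product of the coordinates -/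
def RegM {ι : Type} [Fintype ι] {K : Type} [Field K] [Algebra ℂ K] (M' : Set ι) (p : ι → K)
    (g : K) : Prop :=
  ∃ n₀ : ℕ, ∀ n ≥ n₀, ∃ F : MvPolynomial ι ℂ, F.IsHomogeneous (∑ i, if i ∈ M' then n else 0) ∧
    g * ∏ i, (if i ∈ M' then p i ^ n else 1) = aeval p F

section reg

variable {ι : Type} [Fintype ι] {K : Type} [Field K] [Algebra ℂ K] {M' : Set ι} {p : ι → K}

theorem RegM.add {a b : K} (ha : RegM M' p a) (hb : RegM M' p b) : RegM M' p (a + b) := by
  obtain ⟨n1, h1⟩ := ha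
  obtain ⟨n2, h2⟩ := hb
  refine ⟨max n1 n2, fun n hn => ?_⟩
  obtain ⟨F, hF, hF'⟩ := h1 n (le_trans (le_max_left _ _) hn)
  obtain ⟨G, hG, hG'⟩ := h2 n (le_trans (le_max_right _ _) hn)
  exact ⟨F + G, hF.add hG, by rw [map_add, add_mul, hF', hG']⟩

theorem RegM.smul {a : K} (ha : RegM M' p a) (c : ℂ) : RegM M' p (algebraMap ℂ K c * a) := by
  obtain ⟨n1, h1⟩ := ha
  refine ⟨n1, fun n hn => ?_⟩
  obtain ⟨F, hF, hF'⟩ := h1 n hn
  refine ⟨C c * F, ?_, by rw [map_mul, aeval_C, mul_assoc, hF']⟩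
  have := (isHomogeneous_C ι c).mul hF
  rwa [zero_add] at this

theorem RegM.mon (hp : ∀ i ∈ M', p i ≠ 0) {a : K} (ha : a ∈ MonI M' p) : RegM M' p a := by
  classical
  obtain ⟨m, h1, h2, rfl⟩ := ha
  refine ⟨∑ i, (m i).natAbs, fun n hn => ?_⟩
  have hmn : ∀ i, 0 ≤ (n : ℤ) + m i := by
    intro i
    have h3 : (m i).natAbs ≤ ∑ i, (m i).natAbs :=
      Finset.single_le_sum (f := fun i => (m i).natAbs) (fun _ _ => Nat.zero_le _)
        (Finset.mem_univ i)
    omega
  refine ⟨∏ i, (if i ∈ M' then X i ^ ((n : ℤ) + m i).toNat else 1), ?_, ?_⟩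
  · have h4 : (∑ i, if i ∈ M' then n else 0) = ∑ i, if i ∈ M' then ((n : ℤ) + m i).toNat else 0 := by
      have h5 : ((∑ i, if i ∈ M' then n else 0 : ℕ) : ℤ) =
          ((∑ i, if i ∈ M' then ((n : ℤ) + m i).toNat else 0 : ℕ) : ℤ) := by
        push_cast
        have h6 : ∀ i, (((if i ∈ M' then ((n : ℤ) + m i).toNat else 0 : ℕ)) : ℤ) =
            ((if i ∈ M' then n else 0 : ℕ) : ℤ) + m i := by
          intro i
          split_ifs with hi
          · rw [Int.toNat_of_nonneg (hmn i)]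
          · rw [h1 i hi]; simp
        push_cast at h6
        rw [Finset.sum_congr rfl (fun i _ => h6 i), Finset.sum_add_distrib, h2, add_zero]
      exact_mod_cast h5
    rw [h4]
    apply IsHomogeneous.prod
    intro i _
    split_ifs with hi
    · have := (isHomogeneous_X ℂ i).pow ((n : ℤ) + m i).toNat
      rwa [one_mul] at this
    · exact isHomogeneous_one ι ℂ
  · rw [map_prod, ← Finset.prod_mul_distrib]
    refine Finset.prod_congr rfl fun i _ => ?_
    split_ifs with hi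
    · rw [map_pow, aeval_X, ← zpow_natCast, ← zpow_natCast, Int.toNat_of_nonneg (hmn i),
        ← zpow_add₀ (hp i hi), add_comm]
    · rw [h1 i hi, map_one]; simp

end reg

theorem dvd_pow_of_irr {R : Type} [CommRing R] [IsDomain R] [UniqueFactorizationMonoid R]
    (c b : R) (hb : b ≠ 0) (h : ∀ q, Irreducible q → q ∣ b → q ∣ c) : ∃ k : ℕ, b ∣ c ^ k := by
  induction b using WfDvdMonoid.induction_on_irreducible with
  | zero => exact absurd rfl hb
  | unit u hu => exact ⟨0, by rw [pow_zero]; exact hu.dvd⟩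
  | mul a i ha hi ih =>
    obtain ⟨k, hk⟩ := ih ha (fun q hq hqa => h q hq (dvd_mul_of_dvd_right hqa i))
    refine ⟨k + 1, ?_⟩
    rw [pow_succ, mul_comm]
    exact mul_dvd_mul hk (h i hi (dvd_mul_right i a))

theorem fp {ι K : Type} [Fintype ι] [CommMonoid K] (M : Set ι) [DecidablePred (· ∈ M)]
    (g : ι → K) : ∏ᶠ i ∈ M, g i = ∏ i, if i ∈ M then g i else 1 := by
  rw [finprod_eq_prod_of_fintype]
  refine Finset.prod_congr rfl fun i _ => ?_
  exact finprod_eq_if

theorem ureg (hUd : UdivStmt) (hA : AlocStmt) (hF : FderStmt) (hC : CfldStmt) (hS : SgenStmt) :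
    UregStmt := by
  classical
  intro ι _ d N e hN hLM he f hf
  obtain ⟨-, hcoord, -, hvar⟩ := hC ι (d + 1) N hN
  have hy := hcoord e he
  have hp : ∀ i ∈ N.M, N.LF i ≠ 0 := fun i hi => H81.LF_ne N i hi
  obtain ⟨a, b, hab, hmk⟩ := IsFractionRing.exists_reduced_fraction
    (A := MvPolynomial (Fin (d + 1)) ℂ) (e f)
  have hb0 : (b : MvPolynomial (Fin (d + 1)) ℂ) ≠ 0 := nonZeroDivisors.ne_zero b.2
  have hinj := IsFractionRing.injective (MvPolynomial (Fin (d + 1)) ℂ) (Fd (d + 1))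
  have hyvm : ∀ P : MvPolynomial (Fin (d + 1)) ℂ, aeval (yv (d + 1)) P =
      algebraMap (MvPolynomial (Fin (d + 1)) ℂ) (Fd (d + 1)) P := by
    intro P
    have h := aeval_algebraMap_apply (Fd (d + 1)) (X : Fin (d + 1) → MvPolynomial (Fin (d + 1)) ℂ) P
    rw [aeval_X_left_apply] at h
    exact h
  have hef : e f = aeval (yv (d + 1)) a / aeval (yv (d + 1)) (b : MvPolynomial (Fin (d + 1)) ℂ) := by
    rw [← hmk, hyvm, hyvm, IsFractionRing.mk'_eq_div]
  have hsymm : ∀ P : MvPolynomial (Fin (d + 1)) ℂ, e.symm (aeval (yv (d + 1)) P) =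
      aeval (N.ch e) P := by
    intro P
    exact comp_aeval_apply (f := yv (d + 1)) (φ := e.symm.toAlgHom) (p := P)
  have hff : f = aeval (N.ch e) a / aeval (N.ch e) (b : MvPolynomial (Fin (d + 1)) ℂ) := by
    rw [← hsymm, ← hsymm, ← map_div₀, ← hef, AlgEquiv.symm_apply_apply]
  -- the product of all the units
  obtain ⟨π, hπ⟩ : ∃ π : MvPolynomial (Fin (d + 1)) ℂ, π = (∏ j, X j) *
    ∏ i, (if i ∈ N.M then map (Nat.castRingHom ℂ) (N.L i) else 1) := ⟨_, rfl⟩
  have hirr : ∀ q, Irreducible q → q ∣ (b : MvPolynomial (Fin (d + 1)) ℂ) → q ∣ π := by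
    intro q hq hqb
    by_contra hqπ
    have h1 : ∀ j, ¬ q ∣ X j := by
      intro j hj
      apply hqπ
      rw [hπ]
      exact dvd_mul_of_dvd_left (hj.trans (Finset.dvd_prod_of_mem _ (Finset.mem_univ j))) _
    have h2 : ∀ i ∈ N.M, ¬ q ∣ map (Nat.castRingHom ℂ) (N.L i) := by
      intro i hi hj
      apply hqπ
      rw [hπ]
      apply dvd_mul_of_dvd_right
      refine dvd_trans ?_ (Finset.dvd_prod_of_mem _ (Finset.mem_univ i))
      rw [if_pos hi]
      exact hj
    obtain ⟨D, O, hD1, hD2, hO1, hO2, hO3, hO4, hO5⟩ := hUd ι d N e hN he q hq h1 h2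
    obtain ⟨D', hD'⟩ := hF N.var.K (d + 1) (N.ch e) hy
    have h3 := hf D hD1 hD2 O hO1 hO2
    have h4 := (hA N.var.K (d + 1) (N.ch e) O D' hD' hO3 (hO4 D' hD') f).1 h3
    have hqa : ¬ q ∣ a := fun h5 => hq.not_isUnit (hab h5 hqb)
    apply hO5 a b hqa hb0 hqb
    rw [← hff]
    exact h4
  obtain ⟨k, c, hc⟩ := dvd_pow_of_irr π _ hb0 hirr
  have hπ0 : π ≠ 0 := by
    rw [hπ]
    apply mul_ne_zero
    · exact Finset.prod_ne_zero_iff.2 fun j _ => X_ne_zero j
    · refine Finset.prod_ne_zero_iff.2 fun i _ => ?_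
      split_ifs with hi
      · intro h5
        exact hi (map_injective (Nat.castRingHom ℂ) Nat.cast_injective (by rw [h5, map_zero]))
      · exact one_ne_zero
  have hne : ∀ P : MvPolynomial (Fin (d + 1)) ℂ, P ≠ 0 → aeval (yv (d + 1)) P ≠ 0 := by
    intro P hP h5
    rw [hyvm] at h5
    exact hP (hinj (h5.trans (map_zero _).symm))
  have hefπ : e f = aeval (yv (d + 1)) (a * c) * ((aeval (yv (d + 1)) π) ^ k)⁻¹ := by
    have h5 : (aeval (yv (d + 1)) π) ^ k = aeval (yv (d + 1)) (b : MvPolynomial (Fin (d + 1)) ℂ) *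
        aeval (yv (d + 1)) c := by
      rw [← map_pow, hc, map_mul]
    have h6 : aeval (yv (d + 1)) c ≠ 0 := by
      apply hne
      rintro rfl
      rw [mul_zero] at hc
      exact pow_ne_zero k hπ0 hc
    have h7 := hne _ hb0
    rw [hef, h5, map_mul]
    field_simp
  have hπM : aeval (yv (d + 1)) π ∈ MonI N.M N.LF := by
    rw [hπ, map_mul, map_prod, map_prod]
    apply MonI_mul hp
    · apply MonI_prod hp
      intro j _
      rw [aeval_X]
      exact hN j
    · apply MonI_prod hp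
      intro i _
      split_ifs with hi
      · rw [evN_map]
        exact hLM i hi
      · rw [map_one]; exact MonI_one
  have hg0 : ((aeval (yv (d + 1)) π) ^ k)⁻¹ ∈ MonI N.M N.LF := MonI_inv (MonI_pow hp hπM k)
  obtain ⟨g0, hg0'⟩ : ∃ g0, g0 = ((aeval (yv (d + 1)) π) ^ k)⁻¹ := ⟨_, rfl⟩
  rw [← hg0'] at hg0 hefπ
  have hreg : ∀ P : MvPolynomial (Fin (d + 1)) ℂ, RegM N.M N.LF (aeval (yv (d + 1)) P * g0) := by
    intro P
    induction P using MvPolynomial.induction_on' with
    | monomial u c =>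
      rw [aeval_monomial, mul_assoc]
      apply RegM.smul
      apply RegM.mon hp
      apply MonI_mul hp _ hg0
      exact MonI_prod hp _ _ fun j _ => MonI_pow hp (hN j) _
    | add p q h1 h2 =>
      rw [map_add, add_mul]
      exact h1.add h2
  obtain ⟨n₀, hn₀⟩ := hreg (a * c)
  obtain ⟨F, hFh, hFe⟩ := hn₀ n₀ le_rfl
  rw [← hefπ] at hFe
  have hcard : (∑ i, if i ∈ N.M then n₀ else 0) = n₀ * Nat.card N.M := by
    rw [← Finset.sum_filter, Finset.sum_const, Nat.card_eq_fintype_card, Fintype.card_subtype,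
      smul_eq_mul, mul_comm]
  refine ⟨n₀, F, ?_, ?_⟩
  · rw [← hcard]; exact hFh
  · -- transfer to the generic point
    obtain ⟨G, hG⟩ : ∃ G : MvPolynomial ι ℂ, G = ∏ i, (if i ∈ N.M then X i ^ n₀ else 1) := ⟨_, rfl⟩
    have hGh : G.IsHomogeneous (∑ i, if i ∈ N.M then n₀ else 0) := by
      rw [hG]
      apply IsHomogeneous.prod
      intro i _
      split_ifs with hi
      · have := (isHomogeneous_X ℂ i).pow n₀
        rwa [one_mul] at this
      · exact isHomogeneous_one ι ℂ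
    have hG1 : ∀ (K : Type) [Field K] [Algebra ℂ K] (z : ι → K), aeval z G =
        ∏ i, (if i ∈ N.M then z i ^ n₀ else 1) := by
      intro K _ _ z
      rw [hG, map_prod]
      refine Finset.prod_congr rfl fun i _ => ?_
      split_ifs with hi
      · rw [map_pow, aeval_X]
      · rw [map_one]
    rw [fp, ← hG1]
    rw [← hG1] at hFe
    obtain ⟨m, F', G', hF', hG', hG'0, h1, h2⟩ := (he f (e f)).2 rfl
    have hS1 := (hS ι N.var).1
    have h3 : F * G' - F' * G ∈ N.var.I := by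
      have h4 : (F * G' - F' * G).IsHomogeneous ((∑ i, if i ∈ N.M then n₀ else 0) + m) := by
        apply IsHomogeneous.sub
        · exact hFh.mul hG'
        · rw [add_comm]; exact hF'.mul hGh
      rw [← hvar _ _ h4, map_sub, map_mul, map_mul, ← hFe, ← h2]
      ring
    rw [← hS1, map_sub, map_mul, map_mul, ← h1, sub_eq_zero] at h3
    have h5 : aeval N.var.gen G' ≠ 0 := by
      intro h6
      apply hG'0
      rw [hvar _ _ hG']
      exact (hS1 _).1 h6
    apply mul_right_cancel₀ h5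
    rw [h3]
    ring

end PosGeom.H58
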