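import Pool.Agent.Helper93_ABCT.StmtK
import Pool.Agent.Helper81_ABCT.Cfld

/-!
# ABCT: the variety with a given generic point
-/

open MvPolynomial Topology

namespace PosGeom.H58

section pv

variable {ι : Type} {L : Type} [Field L] [Algebra ℂ L] (ξ : ι → L)

/-- evaluation at the generic point of the affine cone -/
noncomputable def ph : MvPolynomial ι ℂ →ₐ[ℂ] Polynomial L :=
  aeval fun i => Polynomial.X * Polynomial.C (ξ i)

theorem ph_coeff (F : MvPolynomial ι ℂ) (n : ℕ) :
    (ph ξ F).coeff n = aeval ξ (homogeneousComponent n F) := by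
  classical
  have key : ∀ (m : ℕ) (G : MvPolynomial ι ℂ), G.IsHomogeneous m →
      ph ξ G = Polynomial.X ^ m * Polynomial.C (aeval ξ G) := by
    intro m G hG
    rw [ph, aeval_def, eval₂_eq, aeval_def, eval₂_eq, map_sum, Finset.mul_sum]
    refine Finset.sum_congr rfl fun μ hμ => ?_
    have hm : ∑ i ∈ μ.support, μ i = m := by
      have := hG (mem_support_iff.mp hμ)
      rw [Finsupp.weight_apply, Finsupp.sum] at this
      simpa using this
    rw [map_mul, map_prod]
    have h1 : (algebraMap ℂ (Polynomial L)) (coeff μ G) =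
        Polynomial.C ((algebraMap ℂ L) (coeff μ G)) := by
      rw [Polynomial.algebraMap_apply]
    rw [h1]
    have h2 : (∏ i ∈ μ.support, (Polynomial.X * Polynomial.C (ξ i)) ^ μ i) =
        Polynomial.X ^ m * ∏ i ∈ μ.support, Polynomial.C ((ξ i) ^ μ i) := by
      rw [← hm, ← Finset.prod_pow_eq_pow_sum, ← Finset.prod_mul_distrib]
      refine Finset.prod_congr rfl fun i _ => ?_
      rw [mul_pow, Polynomial.C_pow]
    rw [h2]
    ring
  have hsum : ph ξ F = ∑ m ∈ Finset.range (F.totalDegree + 1), ph ξ (homogeneousComponent m F) := by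
    conv_lhs => rw [← sum_homogeneousComponent F]
    rw [map_sum]
  rw [hsum, Polynomial.finsetSum_coeff]
  by_cases hn : n ∈ Finset.range (F.totalDegree + 1)
  · rw [Finset.sum_eq_single n]
    · rw [key n _ (homogeneousComponent_isHomogeneous n F), Polynomial.coeff_X_pow_mul',
        if_pos le_rfl, Nat.sub_self, Polynomial.coeff_C_zero]
    · intro m _ hm
      rw [key m _ (homogeneousComponent_isHomogeneous m F), Polynomial.coeff_X_pow_mul']
      split_ifs with h
      · rw [Polynomial.coeff_C, if_neg (by omega)]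
      · rfl
    · intro h
      exact absurd hn h
  · rw [Finset.sum_eq_zero]
    · rw [homogeneousComponent_eq_zero, map_zero]
      rw [Finset.mem_range] at hn
      omega
    · intro m hm
      rw [key m _ (homogeneousComponent_isHomogeneous m F), Polynomial.coeff_X_pow_mul']
      rw [Finset.mem_range] at hn hm
      split_ifs with h
      · rw [Polynomial.coeff_C, if_neg (by omega)]
      · rfl

/-- the variety with generic point `ξ` -/
noncomputable def pv (h : ∃ i, ξ i ≠ 0) : PVar ι where
  I := RingHom.ker (ph ξ : MvPolynomial ι ℂ →+* Polynomial L)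
  prime := RingHom.ker_isPrime _
  homog := by
    intro F hF n
    rw [RingHom.mem_ker] at hF ⊢
    have hF' : ph ξ F = 0 := hF
    show ph ξ (homogeneousComponent n F) = 0
    ext1 m
    rw [ph_coeff, Polynomial.coeff_zero]
    by_cases hmn : m = n
    · subst hmn
      have h1 : homogeneousComponent m (homogeneousComponent m F) = homogeneousComponent m F := by
        rw [homogeneousComponent_of_mem (homogeneousComponent_isHomogeneous m F), if_pos rfl]
      rw [h1, ← ph_coeff, hF', Polynomial.coeff_zero]
    · have h1 : homogeneousComponent m (homogeneousComponent n F) = 0 := by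
        rw [homogeneousComponent_of_mem (homogeneousComponent_isHomogeneous n F), if_neg hmn]
      rw [h1, map_zero]
  rel := by
    obtain ⟨i, hi⟩ := h
    refine ⟨i, fun h => ?_⟩
    rw [RingHom.mem_ker] at h
    have h' : ph ξ (X i) = 0 := h
    rw [ph, aeval_X] at h'
    rcases mul_eq_zero.mp h' with h3 | h3
    · exact absurd h3 Polynomial.X_ne_zero
    · exact hi (Polynomial.C_eq_zero.mp h3)

theorem mem_pv {h : ∃ i, ξ i ≠ 0} {F : MvPolynomial ι ℂ} :
    F ∈ (pv ξ h).I ↔ ∀ n, aeval ξ (homogeneousComponent n F) = 0 := by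
  have h2 : F ∈ (pv ξ h).I ↔ ph ξ F = 0 := Iff.rfl
  rw [h2]
  constructor
  · intro h n
    rw [← ph_coeff, h, Polynomial.coeff_zero]
  · intro h
    ext1 n
    rw [ph_coeff, h, Polynomial.coeff_zero]

theorem mem_pv_hom {h : ∃ i, ξ i ≠ 0} {F : MvPolynomial ι ℂ} {n : ℕ} (hF : F.IsHomogeneous n) :
    aeval ξ F = 0 ↔ F ∈ (pv ξ h).I := by
  rw [mem_pv]
  constructor
  · intro h3 m
    rw [homogeneousComponent_of_mem hF]
    split_ifs with hm
    · exact h3
    · exact map_zero _
  · intro h
    have h3 := h n
    rwa [homogeneousComponent_of_mem hF, if_pos rfl] at h3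

end pv

end PosGeom.H58
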